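import Pool.Agent.H73.PHS.Stmts

/-!
# PHS, row ITR: iteration
-/

set_option autoImplicit false

open Set Filter Topology MeasureTheory Metric

namespace Pool.PHS

theorem ITR_thm (_h1 : LIMStmt) (h2 : IT1Stmt) (h3 : IDNStmt) : ITRStmt := by
  intro n Ω K F hΩo hΩc hΩb hF hFd hsur hK hKΩ hKi hback
  let l : Ultrafilter ℕ := Filter.hyperfilter ℕ
  have hl : (l : Filter ℕ) ≤ atTop := by
    rw [← Nat.cofinite_eq_atTop]; exact Filter.hyperfilter_le_cofinite
  have hmk : ∀ k, MapsTo (F^[k]) Ω Ω := fun k => hF.iterate k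
  have hit : ∀ k, DifferentiableOn ℂ (F^[k]) Ω := fun k => hFd.iterate hF k
  have hmc : ∀ k, MapsTo (F^[k]) Ω (closure Ω) := fun k z hz => subset_closure (hmk k hz)
  obtain ⟨G, hGd, hGm, hGt⟩ := h2 n Ω l (fun k => F^[k]) hΩo hΩb hit hmc
  have hH : ∀ k : ℕ, ∃ g : Cn n → Cn n, DifferentiableOn ℂ g Ω ∧ MapsTo g Ω (closure Ω) ∧
      TendstoLocallyUniformlyOn (fun m => F^[m - k]) g l Ω := fun k =>
    h2 n Ω l (fun m => F^[m - k]) hΩo hΩb (fun m => hit _) (fun m => hmc _)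
  choose Hk hHkd hHkm hHkt using hH
  obtain ⟨H, hHd, hHm, hHt⟩ := h2 n Ω l Hk hΩo hΩb hHkd hHkm
  have hP : ∀ k : ℕ, ∃ g : Cn n → Cn n, DifferentiableOn ℂ g Ω ∧ MapsTo g Ω (closure Ω) ∧
      TendstoLocallyUniformlyOn (fun m => F^[m - k - 1]) g l Ω := fun k =>
    h2 n Ω l (fun m => F^[m - k - 1]) hΩo hΩb (fun m => hit _) (fun m => hmc _)
  choose Pk hPkd hPkm hPkt using hP
  obtain ⟨P, hPd, hPm, hPt⟩ := h2 n Ω l Pk hΩo hΩb hPkd hPkm
  -- (a)
  have ha : ∀ z ∈ Ω, ∀ k, Hk k (F^[k] z) = G z := by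
    intro z hz k
    have e1 : Tendsto (fun m => F^[m - k] (F^[k] z)) l (𝓝 (Hk k (F^[k] z))) :=
      (hHkt k).tendsto_at (hmk k hz)
    have e2 : Tendsto (fun m => F^[m] z) l (𝓝 (G z)) := hGt.tendsto_at hz
    refine tendsto_nhds_unique_of_eventuallyEq e1 e2 ?_
    filter_upwards [(eventually_ge_atTop k).filter_mono hl] with m hm
    rw [← Function.iterate_add_apply, Nat.sub_add_cancel hm]
  -- (b)
  have hb : ∀ z ∈ Ω, G z ∈ Ω → H (G z) = G z := by
    intro z hz hGz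
    have e1 : Tendsto (fun k => F^[k] z) l (𝓝 (G z)) := hGt.tendsto_at hz
    have e2 : Tendsto (fun k => F^[k] z) l (𝓝[Ω] (G z)) :=
      tendsto_nhdsWithin_iff.2 ⟨e1, Eventually.of_forall fun k => hmk k hz⟩
    have e3 : Tendsto (fun k => Hk k (F^[k] z)) l (𝓝 (H (G z))) :=
      hHt.tendsto_comp (hHd.continuousOn (G z) hGz) hGz e2
    have e4 : Tendsto (fun _ : ℕ => G z) l (𝓝 (H (G z))) :=
      e3.congr (fun k => ha z hz k)
    exact (tendsto_nhds_unique e4 tendsto_const_nhds)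
  -- (c)
  have hc0 : ∀ k : ℕ, ∀ w ∈ K, ∃ z ∈ K, F^[k] z = w := by
    intro k
    induction k with
    | zero => intro w hw; exact ⟨w, hw, rfl⟩
    | succ k ih =>
      intro w hw
      obtain ⟨y, hy, rfl⟩ := hsur (hKΩ hw)
      obtain ⟨z, hz, hzy⟩ := ih y (hback y hy hw)
      refine ⟨z, hz, ?_⟩
      rw [Function.iterate_succ_apply', hzy]
  have hc : ∀ w ∈ K, ∃ z ∈ K, G z = w := by
    intro w hw
    choose zs hzs hzw using fun k => hc0 k w hw
    have hle : ((l.map zs : Ultrafilter (Cn n)) : Filter (Cn n)) ≤ 𝓟 K := by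
      rw [le_principal_iff]
      exact Filter.mem_map.2 (Filter.univ_mem' hzs)
    obtain ⟨z, hz, hlz⟩ := isCompact_iff_ultrafilter_le_nhds.1 hK (l.map zs) hle
    have e1 : Tendsto zs l (𝓝 z) := hlz
    have e2 : Tendsto zs l (𝓝[Ω] z) :=
      tendsto_nhdsWithin_iff.2 ⟨e1, Eventually.of_forall fun k => hKΩ (hzs k)⟩
    have e3 : Tendsto (fun k => F^[k] (zs k)) l (𝓝 (G z)) :=
      hGt.tendsto_comp (hGd.continuousOn z (hKΩ hz)) (hKΩ hz) e2
    have e4 : Tendsto (fun _ : ℕ => w) l (𝓝 (G z)) := e3.congr (fun k => hzw k)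
    exact ⟨z, hz, tendsto_nhds_unique e4 tendsto_const_nhds⟩
  have hHK : ∀ w ∈ K, H w = w := by
    intro w hw
    obtain ⟨z, hz, hzw⟩ := hc w hw
    have := hb z (hKΩ hz) (hzw ▸ hKΩ hw)
    rwa [hzw] at this
  have hHid : ∀ z ∈ Ω, H z = z := by
    intro z hz
    ext i
    have e1 : DifferentiableOn ℂ (fun y : Cn n => H y i) Ω := by
      intro y hy
      exact (differentiableWithinAt_pi.1 (hHd y hy)) i
    have e2 : DifferentiableOn ℂ (fun y : Cn n => y i) Ω := by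
      intro y hy
      exact (differentiableWithinAt_pi.1 (differentiableWithinAt_id (x := y))) i
    exact h3 n (fun y => H y i) (fun y => y i) Ω (interior K) hΩo hΩc.isPreconnected e1 e2
      isOpen_interior (interior_subset.trans hKΩ) hKi
      (fun y hy => congrFun (hHK y (interior_subset hy)) i) hz
  -- (d)
  refine ⟨P, hPd, fun z hz => ?_⟩
  have hd : ∀ k, Pk k (F z) = Hk k z := by
    intro k
    have e1 : Tendsto (fun m => F^[m - k - 1] (F z)) l (𝓝 (Pk k (F z))) :=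
      (hPkt k).tendsto_at (hF hz)
    have e2 : Tendsto (fun m => F^[m - k] z) l (𝓝 (Hk k z)) := (hHkt k).tendsto_at hz
    refine tendsto_nhds_unique_of_eventuallyEq e1 e2 ?_
    filter_upwards [(eventually_ge_atTop (k + 1)).filter_mono hl] with m hm
    have hmm : m - k = (m - k - 1) + 1 := by omega
    conv_rhs => rw [hmm]
    rw [Function.iterate_succ_apply]
  have e1 : Tendsto (fun k => Pk k (F z)) l (𝓝 (P (F z))) := hPt.tendsto_at (hF hz)
  have e2 : Tendsto (fun k => Hk k z) l (𝓝 (H z)) := hHt.tendsto_at hz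
  have e3 : P (F z) = H z := tendsto_nhds_unique_of_eventuallyEq e1 e2
    (Eventually.of_forall hd)
  rw [e3, hHid z hz]

end Pool.PHS
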